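import Mathlib

open Polynomial Filter Topology

namespace Pool.Agent.Results.MP_e8c887_nt.Irr

abbrev P := Polynomial (ZMod 2)

noncomputable def HH (x y : P) : P := (x - y) ^ 2 + X * y ^ 2
noncomputable def FF (x y : P) : P := x * (x - y) * HH x y + X ^ 2 * y ^ 4
noncomputable def GG (x y : P) : P := X * HH x y * y ^ 2
noncomputable def EE (x y a b : P) : P :=
  (x * b + a * y - y * b) * HH x y * HH a b - X ^ 2 * (x * b + a * y - 2 * y * b) * y ^ 2 * b ^ 2

def Good (p : P × P) : Prop :=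
  p.2.eval 0 = 1 ∧ IsCoprime p.1 p.2 ∧ p.2.natDegree < p.1.natDegree

noncomputable def sg (p : P × P) : ℕ := if p.1.eval 0 = 0 then 1 else 2

lemma sg_cases (p : P × P) : sg p = 1 ∨ sg p = 2 := by
  unfold sg; split_ifs <;> simp

lemma cross (x y a b : P) :
    FF x y * GG a b - FF a b * GG x y = X * (x * b - a * y) * EE x y a b := by
  unfold FF GG EE HH; ring

lemma zm2 (c : ZMod 2) (h : c ≠ 0) : c = 1 := by
  revert c; decide

lemma copX (p : P) (h : p.eval 0 ≠ 0) : IsCoprime p X := by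
  have : ¬ (X : P) ∣ p := by
    rw [Polynomial.X_dvd_iff, Polynomial.coeff_zero_eq_eval_zero]; exact h
  exact ((Polynomial.prime_X.irreducible.coprime_iff_not_dvd).2 this).symm

lemma degF (x y : P) (hy : y ≠ 0) (h : y.natDegree < x.natDegree) :
    (FF x y).natDegree = 4 * x.natDegree ∧ (GG x y).natDegree < 4 * x.natDegree := by
  have hx : x ≠ 0 := by rintro rfl; simp at h
  have hw : (x - y).natDegree = x.natDegree := natDegree_sub_eq_left_of_natDegree_lt h
  have hw0 : x - y ≠ 0 := by intro h0; rw [h0] at hw; simp at hw; omega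
  have h1 : (X * y ^ 2 : P).natDegree = 1 + 2 * y.natDegree := by
    rw [natDegree_mul X_ne_zero (pow_ne_zero _ hy), natDegree_X, natDegree_pow]
  have h2 : ((x - y) ^ 2).natDegree = 2 * x.natDegree := by rw [natDegree_pow, hw]
  have hH : (HH x y).natDegree = 2 * x.natDegree := by
    unfold HH
    rw [natDegree_add_eq_left_of_natDegree_lt (by omega), h2]
  have hH0 : HH x y ≠ 0 := by intro h0; rw [h0] at hH; simp at hH; omega
  have h3 : (x * (x - y) * HH x y).natDegree = 4 * x.natDegree := by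
    rw [natDegree_mul (mul_ne_zero hx hw0) hH0, natDegree_mul hx hw0, hw, hH]; ring
  have h4 : (X ^ 2 * y ^ 4 : P).natDegree = 2 + 4 * y.natDegree := by
    rw [natDegree_mul (pow_ne_zero _ X_ne_zero) (pow_ne_zero _ hy), natDegree_pow, natDegree_X,
      natDegree_pow]
  constructor
  · unfold FF
    rw [natDegree_add_eq_left_of_natDegree_lt (by omega), h3]
  · unfold GG
    rw [natDegree_mul (mul_ne_zero X_ne_zero hH0) (pow_ne_zero _ hy),
      natDegree_mul X_ne_zero hH0, natDegree_X, hH, natDegree_pow]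
    omega

lemma step (p : P × P) (hp : Good p) : ∃ q : P × P, Good q ∧ X ^ sg p * q.1 = FF p.1 p.2 ∧
    X ^ sg p * q.2 = GG p.1 p.2 ∧ q.1.natDegree + sg p = 4 * p.1.natDegree := by
  obtain ⟨x, y⟩ := p
  obtain ⟨hy, hc, hd⟩ := hp
  simp only at hy hc hd ⊢
  have hy0 : y ≠ 0 := by rintro rfl; simp at hy
  obtain ⟨dF, dG⟩ := degF x y hy0 hd
  have key : ∀ a b : P, b.eval 0 = 1 → IsCoprime a b → X ^ sg (x, y) * a = FF x y →
      X ^ sg (x, y) * b = GG x y → ∃ q : P × P, Good q ∧ X ^ sg (x, y) * q.1 = FF x y ∧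
      X ^ sg (x, y) * q.2 = GG x y ∧ q.1.natDegree + sg (x, y) = 4 * x.natDegree := by
    intro a b hb hab e1 e2
    have hb0 : b ≠ 0 := by rintro rfl; simp at hb
    have ha0 : a ≠ 0 := by
      rintro rfl
      rw [mul_zero] at e1; rw [← e1] at dF; simp at dF; omega
    have d1 := congrArg natDegree e1
    have d2 := congrArg natDegree e2
    rw [natDegree_mul (pow_ne_zero _ X_ne_zero) ha0, natDegree_pow, natDegree_X] at d1
    rw [natDegree_mul (pow_ne_zero _ X_ne_zero) hb0, natDegree_pow, natDegree_X] at d2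
    exact ⟨(a, b), ⟨hb, hab, by simp only; omega⟩, e1, e2, by simp only; omega⟩
  have hHy : IsCoprime (HH x y) y := by
    have : HH x y = x ^ 2 + y * (y - 2 * x + X * y) := by unfold HH; ring
    rw [this]; exact (hc.pow_left).add_mul_left_left _
  by_cases h0 : x.eval 0 = 0
  · have hs : sg (x, y) = 1 := by simp [sg, h0]
    obtain ⟨u, rfl⟩ : (X : P) ∣ x := by
      rw [Polynomial.X_dvd_iff, Polynomial.coeff_zero_eq_eval_zero]; exact h0
    have hH1 : (HH (X * u) y).eval 0 = 1 := by simp [HH, hy]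
    apply key (u * (X * u - y) * HH (X * u) y + X * y ^ 4) (HH (X * u) y * y ^ 2)
    · simp [hH1, hy]
    · apply IsCoprime.mul_right
      · have : u * (X * u - y) * HH (X * u) y + X * y ^ 4
            = X * y ^ 4 + HH (X * u) y * (u * (X * u - y)) := by ring
        rw [this]
        apply IsCoprime.add_mul_left_left
        exact IsCoprime.mul_left (copX _ (by rw [hH1]; exact one_ne_zero)).symm
          (hHy.symm.pow_left)
      · apply IsCoprime.pow_right
        have : u * (X * u - y) * HH (X * u) y + X * y ^ 4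
            = u * (X * u) * HH (X * u) y + y * (X * y ^ 3 - u * HH (X * u) y) := by ring
        rw [this]
        apply IsCoprime.add_mul_left_left
        exact ((hc.of_mul_left_right).mul_left hc).mul_left hHy
    · rw [hs]; unfold FF; ring
    · rw [hs]; unfold GG; ring
  · have hs : sg (x, y) = 2 := by simp [sg, h0]
    have h1 := zm2 _ h0
    obtain ⟨u, hu⟩ : (X : P) ∣ x - y := by
      rw [Polynomial.X_dvd_iff, Polynomial.coeff_zero_eq_eval_zero]; simp [h1, hy]
    have hH : HH x y = X * (X * u ^ 2 + y ^ 2) := by unfold HH; rw [hu]; ring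
    have hKy : IsCoprime (X * u ^ 2 + y ^ 2) y := by
      rw [hH] at hHy; exact hHy.of_mul_left_right
    have huy : IsCoprime u y := by
      have : IsCoprime (x - y) y := by
        have := hc.add_mul_left_left (-1)
        have e : x + y * (-1) = x - y := by ring
        rwa [e] at this
      rw [hu] at this; exact this.of_mul_left_right
    apply key (x * u * (X * u ^ 2 + y ^ 2) + y ^ 4) ((X * u ^ 2 + y ^ 2) * y ^ 2)
    · simp [hy]
    · apply IsCoprime.mul_right
      · have : x * u * (X * u ^ 2 + y ^ 2) + y ^ 4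
            = y ^ 4 + (X * u ^ 2 + y ^ 2) * (x * u) := by ring
        rw [this]
        apply IsCoprime.add_mul_left_left
        exact hKy.symm.pow_left
      · apply IsCoprime.pow_right
        have : x * u * (X * u ^ 2 + y ^ 2) + y ^ 4
            = x * u * (X * u ^ 2 + y ^ 2) + y * y ^ 3 := by ring
        rw [this]
        apply IsCoprime.add_mul_left_left
        exact (hc.mul_left huy).mul_left hKy
    · rw [hs]; unfold FF; rw [hH, hu]; ring
    · rw [hs]; unfold GG; rw [hH]; ring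

lemma expand_step (p q p' q' : P × P) (hp : Good p) (hq : Good q) (hs : sg p = sg q)
    (e1 : X ^ sg p * p'.1 = FF p.1 p.2) (e2 : X ^ sg p * p'.2 = GG p.1 p.2)
    (e3 : X ^ sg q * q'.1 = FF q.1 q.2) (e4 : X ^ sg q * q'.2 = GG q.1 q.2) (j : ℕ)
    (h : X ^ j ∣ p'.1 * q'.2 - q'.1 * p'.2) : X ^ (j + 1) ∣ p.1 * q.2 - q.1 * p.2 := by
  obtain ⟨x, y⟩ := p
  obtain ⟨a, b⟩ := q
  obtain ⟨hy, -, -⟩ := hp
  obtain ⟨hb, -, -⟩ := hq
  simp only at hy hb e1 e2 e3 e4 ⊢
  have cr := cross x y a b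
  rw [← e1, ← e2, ← e3, ← e4, ← hs] at cr
  obtain ⟨w, hw⟩ := h
  have fin : ∀ E : P, E.eval 0 ≠ 0 → X * (p'.1 * q'.2 - q'.1 * p'.2) = (x * b - a * y) * E →
      X ^ (j + 1) ∣ x * b - a * y := by
    intro E hE e
    apply IsCoprime.dvd_of_dvd_mul_right ((copX E hE).symm.pow_left)
    rw [← e, hw]; exact ⟨w, by ring⟩
  by_cases h0 : x.eval 0 = 0
  · have s1 : sg (x, y) = 1 := by simp [sg, h0]
    have a0 : a.eval 0 = 0 := by
      by_contra hh
      have : sg (a, b) = 2 := by simp [sg, hh]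
      omega
    apply fin (EE x y a b)
    · simp [EE, HH, h0, a0, hy, hb]
    · apply mul_left_cancel₀ (X_ne_zero (R := ZMod 2))
      rw [s1] at cr
      linear_combination cr
  · have s1 : sg (x, y) = 2 := by simp [sg, h0]
    have a0 : a.eval 0 ≠ 0 := by
      intro hh
      have : sg (a, b) = 1 := by simp [sg, hh]
      omega
    have h1 := zm2 _ h0
    have a1 := zm2 _ a0
    obtain ⟨u, hu⟩ : (X : P) ∣ x - y := by
      rw [Polynomial.X_dvd_iff, Polynomial.coeff_zero_eq_eval_zero]; simp [h1, hy]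
    obtain ⟨v, hv⟩ : (X : P) ∣ a - b := by
      rw [Polynomial.X_dvd_iff, Polynomial.coeff_zero_eq_eval_zero]; simp [a1, hb]
    have hH : HH x y = X * (X * u ^ 2 + y ^ 2) := by unfold HH; rw [hu]; ring
    have hH' : HH a b = X * (X * v ^ 2 + b ^ 2) := by unfold HH; rw [hv]; ring
    apply fin ((x * b + a * y - y * b) * (X * u ^ 2 + y ^ 2) * (X * v ^ 2 + b ^ 2)
      - (x * b + a * y - 2 * y * b) * y ^ 2 * b ^ 2)
    · simp [h1, a1, hy, hb]
      decide
    · apply mul_left_cancel₀ (pow_ne_zero 3 (X_ne_zero (R := ZMod 2)))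
      rw [s1] at cr
      unfold EE at cr
      rw [hH, hH'] at cr
      linear_combination cr

lemma exists_orbit : ∃ p : ℕ → P × P, (∀ n, Good (p n)) ∧ ∀ n,
    X ^ sg (p n) * (p (n + 1)).1 = FF (p n).1 (p n).2 ∧
    X ^ sg (p n) * (p (n + 1)).2 = GG (p n).1 (p n).2 ∧
    (p (n + 1)).1.natDegree + sg (p n) = 4 * (p n).1.natDegree := by
  choose f hf using step
  have g0 : Good (X, 1) := ⟨by simp, isCoprime_one_right, by simp⟩
  let g : {p // Good p} → {p // Good p} := fun p => ⟨f p.1 p.2, (hf p.1 p.2).1⟩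
  refine ⟨fun n => (g^[n] ⟨(X, 1), g0⟩).1, fun n => (g^[n] _).2, fun n => ?_⟩
  simp only [Function.iterate_succ_apply']
  exact (hf _ (g^[n] ⟨(X, 1), g0⟩).2).2

lemma not_periodic (p : ℕ → P × P) (hg : ∀ n, Good (p n)) (hp : ∀ n,
    X ^ sg (p n) * (p (n + 1)).1 = FF (p n).1 (p n).2 ∧
    X ^ sg (p n) * (p (n + 1)).2 = GG (p n).1 (p n).2 ∧
    (p (n + 1)).1.natDegree + sg (p n) = 4 * (p n).1.natDegree) (m n : ℕ) (hmn : m < n)
    (h : ∀ j, sg (p (m + j)) = sg (p (n + j))) : False := by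
  have h1 : ∀ i j : ℕ, (X : P) ^ i ∣ (p (m + j)).1 * (p (n + j)).2 - (p (n + j)).1 * (p (m + j)).2 := by
    intro i
    induction i with
    | zero => intro j; simp
    | succ i ih =>
      intro j
      exact expand_step (p (m + j)) (p (n + j)) (p (m + j + 1)) (p (n + j + 1)) (hg _) (hg _) (h j)
        (hp _).1 (hp _).2.1 (hp _).1 (hp _).2.1 i (ih (j + 1))
  have h2 : (p m).1 * (p n).2 - (p n).1 * (p m).2 = 0 := by
    by_contra hne
    have := natDegree_le_of_dvd (h1 (((p m).1 * (p n).2 - (p n).1 * (p m).2).natDegree + 1) 0) hne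
    simp at this
  have h3 : (p n).1 ∣ (p m).1 := by
    apply IsCoprime.dvd_of_dvd_mul_right (hg n).2.1
    exact ⟨(p m).2, by linear_combination h2⟩
  have hm0 : (p m).1 ≠ 0 := by
    intro h0; have := (hg m).2.2; rw [h0] at this; simp at this
  have h4 := natDegree_le_of_dvd h3 hm0
  have mono : StrictMono (fun n => (p n).1.natDegree) := by
    apply strictMono_nat_of_lt_succ
    intro k
    have := (hp k).2.2
    have := (hg k).2.2
    rcases sg_cases (p k) with h | h <;> omega
  have := mono hmn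
  simp only at this
  omega

lemma irr (h s : ℕ → ℕ) (hs : ∀ n, s n = 1 ∨ s n = 2) (hh : ∀ n, h (n + 1) + s n = 4 * h n)
    (hnp : ∀ m n, m < n → (∀ j, s (m + j) = s (n + j)) → False) :
    ∃ L : ℝ, Tendsto (fun n => (h n : ℝ) / 4 ^ n) atTop (𝓝 L) ∧ Irrational L := by
  have hr : ∀ n, (h (n + 1) : ℝ) = 4 * h n - s n := by
    intro n; have := hh n
    have : ((h (n + 1) + s n : ℕ) : ℝ) = ((4 * h n : ℕ) : ℝ) := by rw [this]
    push_cast at this; linarith
  have s1 : ∀ n, (1 : ℝ) ≤ s n ∧ (s n : ℝ) ≤ 2 := by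
    intro n; rcases hs n with e | e <;> rw [e] <;> norm_num
  have anti : ∀ c : ℝ, c ≤ 1 / 3 → Antitone (fun n => ((h n : ℝ) - c) / 4 ^ n) := by
    intro c hc
    apply antitone_nat_of_succ_le
    intro n
    rw [hr, div_le_div_iff₀ (by positivity) (by positivity), pow_succ]
    have := (s1 n).1
    have hp : (0 : ℝ) < 4 ^ n := by positivity
    nlinarith
  have mono : Monotone (fun n => ((h n : ℝ) - 2 / 3) / 4 ^ n) := by
    apply monotone_nat_of_le_succ
    intro n
    rw [hr, div_le_div_iff₀ (by positivity) (by positivity), pow_succ]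
    have := (s1 n).2
    have hp : (0 : ℝ) < 4 ^ n := by positivity
    nlinarith
  have bdd : BddBelow (Set.range (fun n => ((h n : ℝ) - 0) / 4 ^ n)) := by
    refine ⟨0, ?_⟩
    rintro _ ⟨n, rfl⟩
    simp only [sub_zero]; positivity
  have lim0 := tendsto_atTop_ciInf (anti 0 (by norm_num)) bdd
  set L := ⨅ n, ((h n : ℝ) - 0) / 4 ^ n with hL
  have limc : ∀ c : ℝ, Tendsto (fun n => ((h n : ℝ) - c) / 4 ^ n) atTop (𝓝 L) := by
    intro c
    have t : Tendsto (fun n : ℕ => c * (1 / 4 : ℝ) ^ n) atTop (𝓝 (c * 0)) :=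
      (tendsto_pow_atTop_nhds_zero_of_lt_one (by norm_num) (by norm_num)).const_mul c
    have := lim0.sub t
    simp only [mul_zero, sub_zero] at this
    refine this.congr (fun n => ?_)
    rw [one_div, inv_pow]; field_simp
  have lo : ∀ n, 1 / 3 ≤ (h n : ℝ) - 4 ^ n * L := by
    intro n
    have := (anti (1 / 3) le_rfl).le_of_tendsto (limc _) n
    rw [le_div_iff₀ (by positivity)] at this; linarith
  have hi : ∀ n, (h n : ℝ) - 4 ^ n * L ≤ 2 / 3 := by
    intro n
    have := mono.ge_of_tendsto (limc _) n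
    rw [div_le_iff₀ (by positivity)] at this; linarith
  refine ⟨L, by simpa using limc 0, ?_⟩
  rintro ⟨q, hq⟩
  have hden : (0 : ℝ) < q.den := by exact_mod_cast q.den_pos
  have hLq : (q.den : ℝ) * L = q.num := by
    rw [← hq]; rw [Rat.cast_def]; field_simp
  let r : ℕ → ℤ := fun n => (q.den : ℤ) * h n - 4 ^ n * q.num
  have hrr : ∀ n, (r n : ℝ) = q.den * ((h n : ℝ) - 4 ^ n * L) := by
    intro n; simp only [r]; push_cast; rw [← hLq]; ring
  have hmem : ∀ n, r n ∈ Finset.Icc (0 : ℤ) q.den := by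
    intro n
    have a := lo n
    have b := hi n
    rw [Finset.mem_Icc]
    constructor
    · have : (0 : ℝ) ≤ r n := by rw [hrr]; nlinarith
      exact_mod_cast this
    · have : (r n : ℝ) ≤ q.den := by rw [hrr]; nlinarith
      exact_mod_cast this
  obtain ⟨m, n, hmn, e⟩ := Set.Finite.exists_lt_map_eq_of_forall_mem (f := r)
    (t := (Finset.Icc (0 : ℤ) q.den : Set ℤ)) (fun n => by exact_mod_cast hmem n)
    (Finset.finite_toSet _)
  have e0 : (h m : ℝ) - 4 ^ m * L = h n - 4 ^ n * L := by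
    have : (r m : ℝ) = r n := by rw [e]
    rw [hrr, hrr] at this
    exact mul_left_cancel₀ hden.ne' this
  have st : ∀ a b : ℕ, (h a : ℝ) - 4 ^ a * L = h b - 4 ^ b * L → s a = s b ∧
      (h (a + 1) : ℝ) - 4 ^ (a + 1) * L = h (b + 1) - 4 ^ (b + 1) * L := by
    intro a b e
    have a1 := lo (a + 1)
    have a2 := hi (a + 1)
    have b1 := lo (b + 1)
    have b2 := hi (b + 1)
    rw [hr, pow_succ] at a1 a2 b1 b2
    have : s a = s b := by
      rcases hs a with ea | ea <;> rcases hs b with eb | eb <;> rw [ea] at a1 a2 <;>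
        rw [eb] at b1 b2 <;> push_cast at a1 a2 b1 b2
      · omega
      · exfalso; linarith
      · exfalso; linarith
      · omega
    refine ⟨this, ?_⟩
    rw [hr, hr, pow_succ, pow_succ, this]; linarith
  have all : ∀ j, (h (m + j) : ℝ) - 4 ^ (m + j) * L = h (n + j) - 4 ^ (n + j) * L := by
    intro j
    induction j with
    | zero => simpa using e0
    | succ j ih => exact (st _ _ ih).2
  exact hnp m n hmn (fun j => (st _ _ (all j)).1)

lemma deg_num_denom {k : Type*} [Field k] (x y : k[X]) (hx : x ≠ 0) (hy : y ≠ 0)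
    (h : IsCoprime x y) :
    (algebraMap k[X] (RatFunc k) x / algebraMap k[X] (RatFunc k) y).num.natDegree = x.natDegree ∧
    (algebraMap k[X] (RatFunc k) x / algebraMap k[X] (RatFunc k) y).denom.natDegree
      = y.natDegree := by
  set z := algebraMap k[X] (RatFunc k) x / algebraMap k[X] (RatFunc k) y with hz
  have e : z.num * y = x * z.denom := (RatFunc.num_mul_eq_mul_denom_iff hy).2 hz
  have c := RatFunc.isCoprime_num_denom z
  have hd : z.denom ≠ 0 := RatFunc.denom_ne_zero z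
  have hn : z.num ≠ 0 := by
    intro h0; rw [h0, zero_mul] at e; exact mul_ne_zero hx hd e.symm
  constructor
  · apply le_antisymm
    · exact natDegree_le_of_dvd (c.dvd_of_dvd_mul_right ⟨y, e.symm⟩) hx
    · exact natDegree_le_of_dvd (h.dvd_of_dvd_mul_right ⟨z.denom, e⟩) hn
  · apply le_antisymm
    · exact natDegree_le_of_dvd (c.symm.dvd_of_dvd_mul_left ⟨x, by rw [e]; ring⟩) hy
    · exact natDegree_le_of_dvd (h.symm.dvd_of_dvd_mul_left ⟨z.num, by rw [← e]; ring⟩) hd

theorem result (k : Type*) [Field k] [CharP k 2] :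
    ∃ (F G : Polynomial (RatFunc k)) (d : ℕ) (z : ℕ → RatFunc k) (L : ℝ),
      IsCoprime F G ∧ max F.natDegree G.natDegree = d ∧ 2 ≤ d ∧
      (∀ n, G.eval (z n) ≠ 0 ∧ z (n + 1) = F.eval (z n) / G.eval (z n)) ∧
      Filter.Tendsto
        (fun n : ℕ => ((max (z n).num.natDegree (z n).denom.natDegree : ℕ) : ℝ) / (d : ℝ) ^ n)
        Filter.atTop (nhds L) ∧
      Irrational L := by
  obtain ⟨p, hg, hp⟩ := exists_orbit
  obtain ⟨L, hL, hI⟩ := irr (fun n => (p n).1.natDegree) (fun n => sg (p n))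
    (fun n => sg_cases _) (fun n => (hp n).2.2) (not_periodic p hg hp)
  let φ : ZMod 2 →+* k := ZMod.castHom (dvd_refl 2) k
  let ψ : P →+* RatFunc k := (algebraMap k[X] (RatFunc k)).comp (mapRingHom φ)
  have hφ : Function.Injective φ := φ.injective
  have hψ : Function.Injective ψ :=
    (RatFunc.algebraMap_injective k).comp (Polynomial.map_injective φ hφ)
  have hψ0 : ∀ a : P, a ≠ 0 → ψ a ≠ 0 := fun a ha => (map_ne_zero_iff ψ hψ).2 ha
  have hy0 : ∀ n, (p n).2 ≠ 0 := by
    intro n h0; have := (hg n).1; rw [h0] at this; simp at this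
  have hx0 : ∀ n, (p n).1 ≠ 0 := by
    intro n h0; have := (hg n).2.2; rw [h0] at this; simp at this
  set t : RatFunc k := ψ X with ht
  have ht0 : t ≠ 0 := hψ0 _ X_ne_zero
  refine ⟨X * (X - 1) * ((X - 1) ^ 2 + C t) + C (t ^ 2), C t * ((X - 1) ^ 2 + C t), 4,
    fun n => ψ (p n).1 / ψ (p n).2, L, ?_, ?_, by norm_num, ?_, ?_, hI⟩
  · refine ⟨C (t ^ 2)⁻¹, -(C (t ^ 3)⁻¹ * (X * (X - 1))), ?_⟩
    have e1 : (C (t ^ 2)⁻¹ : (RatFunc k)[X]) * C (t ^ 2) = 1 := by
      rw [← C_mul, inv_mul_cancel₀ (pow_ne_zero _ ht0), C_1]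
    have e2 : (C (t ^ 3)⁻¹ : (RatFunc k)[X]) * C t = C (t ^ 2)⁻¹ := by
      rw [← C_mul]; congr 1; field_simp
    linear_combination e1 - (X * (X - 1) * ((X - 1) ^ 2 + C t)) * e2
  · have d1 : (X * (X - 1) * ((X - 1) ^ 2 + C t) + C (t ^ 2) : (RatFunc k)[X]).natDegree = 4 := by
      compute_degree!
    have d2 : (C t * ((X - 1) ^ 2 + C t) : (RatFunc k)[X]).natDegree ≤ 2 := by
      compute_degree!
    omega
  · intro n
    obtain ⟨e1, e2, -⟩ := hp n
    have f1 := congrArg ψ e1
    have f2 := congrArg ψ e2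
    simp only [FF, GG, HH, map_mul, map_add, map_sub, map_pow, ← ht] at f1 f2
    have y0 := hψ0 _ (hy0 n)
    have y1 := hψ0 _ (hy0 (n + 1))
    set x := ψ (p n).1
    set y := ψ (p n).2
    set a := ψ (p (n + 1)).1
    set b := ψ (p (n + 1)).2
    have hs : t ^ sg (p n) ≠ 0 := pow_ne_zero _ ht0
    have hH : (x - y) ^ 2 + t * y ^ 2 ≠ 0 := by
      intro h0; rw [h0] at f2; simp at f2
      rcases f2 with f | f
      · exact ht0 f.1
      · exact y1 f
    have eG : eval (x / y) (C t * ((X - 1) ^ 2 + C t) : (RatFunc k)[X])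
        = t * ((x - y) ^ 2 + t * y ^ 2) / y ^ 2 := by
      simp only [eval_mul, eval_add, eval_pow, eval_sub, eval_C, eval_X, eval_one]
      field_simp
    have eF : eval (x / y) (X * (X - 1) * ((X - 1) ^ 2 + C t) + C (t ^ 2) : (RatFunc k)[X])
        = (x * (x - y) * ((x - y) ^ 2 + t * y ^ 2) + t ^ 2 * y ^ 4) / y ^ 4 := by
      simp only [eval_mul, eval_add, eval_pow, eval_sub, eval_C, eval_X, eval_one]
      field_simp
    simp only
    rw [eG, eF]
    refine ⟨div_ne_zero (mul_ne_zero ht0 hH) (pow_ne_zero _ y0), ?_⟩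
    have : a / b = (t ^ sg (p n) * a) / (t ^ sg (p n) * b) := by field_simp
    rw [this, f1, f2]
    field_simp
  · refine hL.congr (fun n => ?_)
    have c : IsCoprime ((p n).1.map φ) ((p n).2.map φ) := (hg n).2.1.map (mapRingHom φ)
    obtain ⟨d1, d2⟩ := deg_num_denom ((p n).1.map φ) ((p n).2.map φ)
      ((Polynomial.map_ne_zero_iff hφ).2 (hx0 n)) ((Polynomial.map_ne_zero_iff hφ).2 (hy0 n)) c
    rw [natDegree_map_eq_of_injective hφ] at d1 d2
    have e : ψ (p n).1 / ψ (p n).2 = algebraMap k[X] (RatFunc k) ((p n).1.map φ) /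
      algebraMap k[X] (RatFunc k) ((p n).2.map φ) := rfl
    simp only
    rw [e, d1, d2, max_eq_left (hg n).2.2.le]
    norm_num

end Pool.Agent.Results.MP_e8c887_nt.Irr
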